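import Pool.Agent.helper55.FPZ.Spec

set_option autoImplicit false

namespace Pool.Agent.FPZ

open Matrix Polynomial Pool.Agent.PL Pool.Agent.X4

theorem CZ_cst_mul {F : Type} [Field F] [CharZero F] {N : ℕ} (X Y : Matrix (Fin N) (Fin N) ℚ) :
    cst F (X * Y) = cst F X * cst F Y :=
  Matrix.map_mul (f := Rat.castHom F)

theorem CZ_cst_add {F : Type} [Field F] [CharZero F] {N : ℕ} (X Y : Matrix (Fin N) (Fin N) ℚ) :
    cst F (X + Y) = cst F X + cst F Y := by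
  ext i j
  exact Rat.cast_add _ _

theorem CZ_cst_sub {F : Type} [Field F] [CharZero F] {N : ℕ} (X Y : Matrix (Fin N) (Fin N) ℚ) :
    cst F (X - Y) = cst F X - cst F Y := by
  ext i j
  exact Rat.cast_sub _ _

theorem CZ_cst_smul {F : Type} [Field F] [CharZero F] {N : ℕ} (c : ℚ)
    (X : Matrix (Fin N) (Fin N) ℚ) : cst F (c • X) = (c : F) • cst F X := by
  ext i j
  exact Rat.cast_mul _ _

theorem CZ_cst_zero {F : Type} [Field F] [CharZero F] {N : ℕ} :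
    cst F (0 : Matrix (Fin N) (Fin N) ℚ) = 0 := by
  ext i j
  exact Rat.cast_zero

theorem CZ (hCH : CH_stmt) (hLIE : LIE_stmt) (hGZ : GZ_stmt) (hDD : DD_stmt) (hDC : DC_stmt) (hTP : TP_stmt) (hDB : DB_stmt) : CZ_stmt := by
  intro F _ _ N E D hc G hG hd m t ht I hI Y hY
  have hdet : IsUnit G.det := (Matrix.isUnit_iff_isUnit_det G).1 hG
  have hGG : G * G⁻¹ = 1 := Matrix.mul_nonsing_inv G hdet
  have hGG' : G⁻¹ * G = 1 := Matrix.nonsing_inv_mul G hdet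
  obtain ⟨c1, c2, c3, c4⟩ := hCH F N (dg D G) m I
  obtain ⟨g1, -, -, -⟩ := hGZ F N E D hc
  -- conjugated matrices
  have hconj : ∀ A B : Matrix (Fin N) (Fin N) F, G⁻¹ * (A * B) * G = (G⁻¹ * A * G) * (G⁻¹ * B * G) := by
    intro A B
    calc G⁻¹ * (A * B) * G = G⁻¹ * A * 1 * B * G := by rw [mul_one]; simp only [Matrix.mul_assoc]
      _ = G⁻¹ * A * (G * G⁻¹) * B * G := by rw [hGG]
      _ = (G⁻¹ * A * G) * (G⁻¹ * B * G) := by simp only [Matrix.mul_assoc]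
  have hCD : ∀ A ∈ gD D, G⁻¹ * cst F A * G ∈ CD (dg D G) := by
    intro A hA d hdd
    obtain ⟨z, hz, hzd⟩ := hdd
    have e1 : diagonal d = G⁻¹ * cst F z * G := by
      rw [Matrix.mul_assoc, hzd, ← Matrix.mul_assoc, hGG', Matrix.one_mul]
    rw [e1, ← hconj, ← hconj, ← CZ_cst_mul, ← CZ_cst_mul, g1 A hA z hz.1]
  obtain ⟨Y', hY', Y'', hY1, hY2, rfl⟩ := hLIE F N E D hc Y hY
  have hL' : ch (dg D G) m I (G⁻¹ * cst F Y' * G) = 0 := by
    refine Submodule.span_induction (p := fun X _ => ch (dg D G) m I (G⁻¹ * cst F X * G) = 0)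
      ?_ ?_ ?_ ?_ hY'
    · rintro X ⟨A, hA, B, hB, rfl⟩
      rw [CZ_cst_sub, CZ_cst_mul, CZ_cst_mul, Matrix.mul_sub, Matrix.sub_mul, hconj, hconj]
      exact c1 _ (hCD A hA) _ (hCD B hB)
    · rw [CZ_cst_zero, Matrix.mul_zero, Matrix.zero_mul]
      have := c4 0 0
      rwa [zero_smul, zero_mul] at this
    · intro X X' _ _ h1 h2
      rw [CZ_cst_add, Matrix.mul_add, Matrix.add_mul, c3, h1, h2, add_zero]
    · intro c X _ h1
      rw [CZ_cst_smul, Matrix.mul_smul, Matrix.smul_mul, c4, h1, mul_zero]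
  have hL'' : ch (dg D G) m I (G⁻¹ * cst F Y'' * G) = 0 := by
    obtain ⟨d, hdY⟩ := hd Y'' hY2
    have e1 : G⁻¹ * cst F Y'' * G = diagonal d := by
      rw [Matrix.mul_assoc, hdY, ← Matrix.mul_assoc, hGG', Matrix.one_mul]
    have hdA : d ∈ dg D G := ⟨Y'', hY2, hdY⟩
    rw [e1, c2 d (fun i j hij => hij d hdA)]
    have h1 : der (cst F Y'') m (up F t) = 0 := by
      rw [← hDB, hY1 m t ht]
      funext J
      exact Rat.cast_zero
    have h2 := hDC N m F G⁻¹ G (cst F Y'') hGG' hGG (up F t)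
    rw [h1, Matrix.mulVec_zero, e1, hDD] at h2
    have h3 : (∑ k, d (I k)) * (tp G⁻¹ m *ᵥ up F t) I = 0 := (congrFun h2 I).symm
    rcases mul_eq_zero.1 h3 with h4 | h4
    · rw [h4, mul_zero]
    · exact absurd h4 hI
  rw [CZ_cst_add, Matrix.mul_add, Matrix.add_mul, c3, hL', hL'', add_zero]

end Pool.Agent.FPZ
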